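import Mathlib
import Pool.Agent.MP_55d974_ag.kew.Both

/-!
Restriction of relative zero-cycles modulo `p ^ r` to the thickenings of the special fibre is an
isomorphism in mixed characteristic, and need not be onto in equal characteristic.
-/

open AlgebraicGeometry CategoryTheory Pool.Agent.KEW

theorem Pool.Agent.Results.MP_55d974_ag.Dichotomy.result (p : ℕ) (hp : p.Prime) :
    (∀ (A : Type) [CommRing A] [IsDomain A] [IsDiscreteValuationRing A] [HenselianLocalRing A]
      [CharP (IsLocalRing.ResidueField A) p] [CharZero A] (π : A) (X : Scheme.{0})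
      (f : X ⟶ Spec (CommRingCat.of A)) (d r : ℕ),
      S.Adm f π d → S.Res S.IsoLim f π d (p ^ r)) ∧
    ∃ (A : Type) (_ : CommRing A) (_ : IsDomain A) (_ : IsDiscreteValuationRing A)
      (_ : HenselianLocalRing A) (_ : CharP (IsLocalRing.ResidueField A) p) (_ : CharP A p) (π : A)
      (X : Scheme.{0}) (f : X ⟶ Spec (CommRingCat.of A)),
      S.Adm f π 1 ∧ S.Res Pool.Agent.MP_55d974_ag.Missed f π 1 p :=
  ⟨mixed p hp, equal p hp⟩
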