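import Mathlib
import Pool.Agent.MP_55d974_ag.Final

/-!
In equal characteristic the restriction map `Pic(X) / p ^ r ⟶ lim Pic(X_n) / p ^ r` need not be onto.
-/

open AlgebraicGeometry CategoryTheory Limits Pool.Agent.MP_55d974_ag

theorem Pool.Agent.Results.MP_55d974_ag.EqualChar.result (p : ℕ) (hp : p.Prime) :
    ∃ (A : Type) (_ : CommRing A) (_ : IsDomain A) (_ : IsDiscreteValuationRing A)
      (_ : HenselianLocalRing A) (π : A) (X : Scheme.{0}) (f : X ⟶ Spec (CommRingCat.of A)),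
      Irreducible π ∧ Nonempty (ZMod p ≃+* IsLocalRing.ResidueField A) ∧ CharP A p ∧
      IsProjective f ∧ Flat f ∧ SmoothOfRelativeDimension 1 f ∧
      (∀ x : X, IsRegularLocalRing (X.presheaf.stalk x)) ∧
      Missed ((HF X).obj (K1 (𝟙 X))) (fun n => (HF X).obj (K1 (thick f π (n + 1))))
        (fun n => (HF X).map (trans f π (n + 1))) (fun n => (HF X).map (restr f π (n + 1))) p := by
  have : Fact p.Prime := ⟨hp⟩
  let φ : ZMod p →+* Alg (ZMod p) :=
    (algebraMap (Polynomial (ZMod p)) (Alg (ZMod p))).comp Polynomial.C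
  have hs := snd_smooth p (Spec.map (CommRingCat.ofHom φ))
  have : Smooth (prod.snd : X0 p ⨯ Spec (.of (Alg (ZMod p))) ⟶ _) :=
    SmoothOfRelativeDimension.smooth 1 _
  obtain ⟨y, h1, h2⟩ := main p
  refine ⟨Alg (ZMod p), inferInstance, inferInstance, inferInstance, inferInstance, tt _, _,
    prod.snd, tt_irr, ⟨RingEquiv.ofBijective _ (residue_bij _)⟩,
    charP_of_injective_ringHom φ.injective p, isProjective p _, inferInstance, hs,
    regular_stalk prod.snd, y, h1, fun r hr c => ?_⟩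
  obtain ⟨n, hn⟩ := h2 c
  obtain ⟨r, rfl⟩ := Nat.exists_eq_add_of_le' hr
  exact ⟨n, fun z hz => hn (p ^ r • z) (hz.trans ((congrArg (· • z) (pow_succ p r)).trans
    (mul_nsmul z (p ^ r) p)))⟩
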