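import Mathlib
import Pool.Agent.MP_55d974_ag.kew.Main
import Pool.Agent.MP_55d974_ag.kew.SEq
import Pool.Agent.MP_55d974_ag.kew.LimQ
import Pool.Agent.MP_55d974_ag.kew.Pure

/-!
Restriction of relative zero-cycles modulo `p ^ r` to the thickenings of the special fibre is an
isomorphism in mixed characteristic.
-/

open AlgebraicGeometry CategoryTheory Pool.Agent.MP_55d974_ag Pool.Agent.KEW

theorem Pool.Agent.Results.MP_55d974_ag.MixedChar.result (p : ℕ) (hp : p.Prime) (A : Type)
    [CommRing A] [IsDomain A] [IsDiscreteValuationRing A] [HenselianLocalRing A] [CharZero A]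
    [CharP (IsLocalRing.ResidueField A) p] (π : A) (hπ : Irreducible π) (X : Scheme.{0})
    (f : X ⟶ Spec (CommRingCat.of A)) (d : ℕ) (h1 : IsProjective f) (h2 : Flat f)
    (h3 : ∀ x : X, IsRegularLocalRing (X.presheaf.stalk x))
    (h4 : ∀ s, ∀ Z ∈ irreducibleComponents (f ⁻¹' {s}), topologicalKrullDim Z = d)
    (hG : S.Gersten X d) (hG' : S.Gersten X (d - 1)) (r : ℕ) :
    S.IsoLim ((S.HH X d).obj (S.KS X d)) (fun n => (S.HH X d).obj (S.KD (thick f π n) d))
      (fun n => (S.HH X d).map (S.tr f π d n))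
      (fun n => (S.HH X d).map (S.pull (thick f π n) d)) (p ^ r) :=
  have hR := relDim_of_pure f h1 d h4
  have hg : ∀ m, d ≤ m + 1 → m ≤ d → Gersten X m := fun m h h' => by
    rcases h'.eq_or_lt with rfl | h'
    · exact S.gersten hG
    · rw [show m = d - 1 by omega]
      exact S.gersten hG'
  have h := main_of (stS contS) geo_all bij_all p hp A π hπ X f d h1 h2 h3 hR hg r
  ⟨h.1, h.2, limQ (khS contS) (stS contS) geo_all bij_all p hp A π hπ X f d h1 h2 h3 hR hg r⟩
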